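import Mathlib

namespace Pool.Agent.H.MP_8eb9f8_al

@[ext] structure W (S : Type) : Type where
  lab : List S → S

variable {S : Type} [Group S]

def W.sec (a : W S) (x : S) : W S := ⟨fun v => a.lab (x :: v)⟩

def act : W S → List S → List S
  | _, [] => []
  | a, x :: w => (a.lab [] * x) :: act (a.sec x) w

def actI : W S → List S → List S
  | _, [] => []
  | a, y :: w => ((a.lab [])⁻¹ * y) :: actI (a.sec ((a.lab [])⁻¹ * y)) w

theorem act_actI (w : List S) : ∀ a : W S, act a (actI a w) = w := by
  induction w with
  | nil => intro a; rfl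
  | cons y w ih => intro a; simp only [act, actI, ih, mul_inv_cancel_left]

theorem actI_act (w : List S) : ∀ a : W S, actI a (act a w) = w := by
  induction w with
  | nil => intro a; rfl
  | cons y w ih => intro a; simp only [act, actI, ih, inv_mul_cancel_left]

instance : Mul (W S) := ⟨fun a b => ⟨fun v => a.lab (act b v) * b.lab v⟩⟩
instance : One (W S) := ⟨⟨fun _ => 1⟩⟩
instance : Inv (W S) := ⟨fun a => ⟨fun v => (a.lab (actI a v))⁻¹⟩⟩

theorem mul_lab' (a b : W S) (v : List S) : (a * b).lab v = a.lab (act b v) * b.lab v := rfl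
@[simp] theorem one_lab (v : List S) : (1 : W S).lab v = 1 := rfl
theorem sec_mul (a b : W S) (x : S) : (a * b).sec x = a.sec (b.lab [] * x) * b.sec x := rfl
theorem sec_one (x : S) : (1 : W S).sec x = 1 := rfl

theorem act_mul (w : List S) : ∀ a b : W S, act (a * b) w = act a (act b w) := by
  induction w with
  | nil => intro a b; rfl
  | cons y w ih =>
    intro a b
    simp only [act, sec_mul, ih, mul_lab', mul_assoc]

theorem act_one (w : List S) : act (1 : W S) w = w := by
  induction w with
  | nil => rfl
  | cons y w ih => simp only [act, sec_one, ih, one_lab, one_mul]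

instance : Group (W S) := Group.ofLeftAxioms
  (fun a b c => by
    ext v
    simp only [mul_lab', act_mul, mul_assoc])
  (fun a => by
    ext v
    simp only [mul_lab', one_lab, one_mul])
  (fun a => by
    ext v
    change (a.lab (actI a (act a v)))⁻¹ * a.lab v = 1
    rw [actI_act, inv_mul_cancel])

instance : MulAction (W S) (List S) where
  smul := act
  one_smul := act_one
  mul_smul a b w := act_mul w a b

theorem mul_lab (a b : W S) (v : List S) : (a * b).lab v = a.lab (b • v) * b.lab v := rfl
@[simp] theorem smul_nil' (a : W S) : a • ([] : List S) = [] := rfl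
theorem smul_cons' (a : W S) (x : S) (w : List S) :
    a • (x :: w) = (a.lab [] * x) :: (a.sec x • w) := rfl

@[simp] theorem length_smul (w : List S) : ∀ a : W S, (a • w).length = w.length := by
  induction w with
  | nil => intro a; rfl
  | cons y w ih => intro a; simp only [smul_cons', List.length_cons, ih]

theorem smul_snoc (v : List S) (x : S) : ∀ a : W S, a • (v ++ [x]) = a • v ++ [a.lab v * x] := by
  induction v with
  | nil => intro a; rfl
  | cons y w ih =>
    intro a
    simp only [List.cons_append, smul_cons', ih]
    rfl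

theorem take_smul (w : List S) : ∀ (n : ℕ) (a : W S), (a • w).take n = a • w.take n := by
  induction w with
  | nil => intro n a; simp
  | cons y w ih =>
    intro n a
    cases n with
    | zero => simp
    | succ n => simp only [smul_cons', List.take_succ_cons, ih]

theorem smul_congr (w : List S) : ∀ a b : W S,
    (∀ i, i < w.length → a.lab (w.take i) = b.lab (w.take i)) → a • w = b • w := by
  induction w with
  | nil => intro a b _; rfl
  | cons y w ih =>
    intro a b h
    have h0 := h 0 (by simp)
    simp only [List.take_zero] at h0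
    rw [smul_cons', smul_cons', h0, ih (a.sec y) (b.sec y)]
    intro i hi
    exact h (i + 1) (by simpa using hi)

theorem faithful {a b : W S} (h : ∀ w : List S, a • w = b • w) : a = b := by
  ext v
  have h1 := h (v ++ [1])
  rw [smul_snoc, smul_snoc, h v] at h1
  simpa using h1

/-- truncation -/
def tr (L : ℕ) : W S →* W S where
  toFun a := ⟨fun v => if v.length < L then a.lab v else 1⟩
  map_one' := by ext v; simp
  map_mul' a b := by
    ext v
    have key : v.length ≤ L →
        (⟨fun v => if v.length < L then b.lab v else 1⟩ : W S) • v = b • v := by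
      intro hv
      apply smul_congr
      intro i hi
      have : (v.take i).length < L := by simp; omega
      simp only [this, if_true]
    simp only [mul_lab, length_smul]
    by_cases hv : v.length < L
    · simp only [hv, if_true, key hv.le]
    · simp only [hv, if_false, one_mul]

theorem tr_lab (L : ℕ) (a : W S) (v : List S) :
    (tr L a).lab v = if v.length < L then a.lab v else 1 := rfl

theorem tr_eq_iff {L : ℕ} {a b : W S} :
    tr L a = tr L b ↔ ∀ v : List S, v.length < L → a.lab v = b.lab v := by
  constructor
  · intro h v hv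
    have := congrArg (fun c => W.lab c v) h
    simpa only [tr_lab, hv, if_true] using this
  · intro h
    ext v
    simp only [tr_lab]
    split_ifs with hv
    · exact h v hv
    · rfl

theorem tr_eq_one_iff {L : ℕ} {a : W S} :
    tr L a = 1 ↔ ∀ v : List S, v.length < L → a.lab v = 1 := by
  rw [← map_one (tr L), tr_eq_iff]; rfl

theorem tr_mono {L L' : ℕ} (h : L ≤ L') {a b : W S} (hab : tr L' a = tr L' b) : tr L a = tr L b :=
  tr_eq_iff.2 fun v hv => tr_eq_iff.1 hab v (lt_of_lt_of_le hv h)

theorem tr_mono1 {L L' : ℕ} (h : L ≤ L') {a : W S} (hab : tr L' a = 1) : tr L a = 1 :=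
  tr_eq_one_iff.2 fun v hv => tr_eq_one_iff.1 hab v (lt_of_lt_of_le hv h)

theorem tr_tr {L L' : ℕ} (h : L ≤ L') (a : W S) : tr L (tr L' a) = tr L a :=
  tr_eq_iff.2 fun v hv => by simp only [tr_lab, lt_of_lt_of_le hv h, if_true]

theorem smul_of_tr {L : ℕ} {a b : W S} (h : tr L a = tr L b) {v : List S} (hv : v.length ≤ L) :
    a • v = b • v := by
  apply smul_congr
  intro i hi
  exact tr_eq_iff.1 h _ (by simp; omega)

theorem fix_of_tr {L : ℕ} {a : W S} (h : tr L a = 1) {v : List S} (hv : v.length ≤ L) :
    a • v = v := by
  have := smul_of_tr (a := a) (b := 1) (L := L) (by rw [h, map_one]) hv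
  rwa [one_smul] at this

theorem eq_one_of_tr {a : W S} (h : ∀ L, tr L a = 1) : a = 1 := by
  ext v
  exact tr_eq_one_iff.1 (h (v.length + 1)) v (by omega)

theorem finite_range_tr [Finite S] (L : ℕ) : (Set.range (tr (S := S) L)).Finite := by
  have := (List.finite_length_lt S L).to_subtype
  let f : ({l : List S | l.length < L} → S) → W S :=
    fun c => ⟨fun v => if h : v.length < L then c ⟨v, h⟩ else 1⟩
  refine (Set.finite_range f).subset ?_
  rintro _ ⟨a, rfl⟩
  refine ⟨fun v => a.lab v.1, ?_⟩
  ext v
  simp only [f, tr_lab]
  split_ifs <;> rfl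

theorem exists_min (Z : Set (W S)) (h : ∃ g ∈ Z, g ≠ 1) :
    ∃ u : List S, (∀ g ∈ Z, g • u = u) ∧ ∃ g ∈ Z, g.lab u ≠ 1 := by
  classical
  have hex : ∃ n, ∃ u : List S, u.length = n ∧ ∃ g ∈ Z, g.lab u ≠ 1 := by
    obtain ⟨g, hg, h1⟩ := h
    by_contra hc
    push Not at hc
    exact h1 (W.ext (funext fun v => hc _ v rfl g hg))
  obtain ⟨u, hu, hg⟩ := Nat.find_spec hex
  refine ⟨u, fun g hg => ?_, hg⟩
  apply fix_of_tr (L := u.length) _ le_rfl
  rw [tr_eq_one_iff]
  intro v hv
  by_contra hc
  exact Nat.find_min hex (hu ▸ hv) ⟨v, rfl, g, hg, hc⟩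

open Classical in
/-- one vertex element -/
noncomputable def e (v : List S) (s : S) : W S := ⟨fun w => if w = v then s else 1⟩

theorem e_lab_self (v : List S) (s : S) : (e v s).lab v = s := by simp [e]
theorem e_lab_ne {v w : List S} (s : S) (h : w ≠ v) : (e v s).lab w = 1 := by simp [e, h]

theorem tr_e {v : List S} (s : S) {L : ℕ} (h : L ≤ v.length) : tr L (e v s) = 1 :=
  tr_eq_one_iff.2 fun w hw => e_lab_ne s (by rintro rfl; omega)

theorem e_fix {v w : List S} (s : S) (h : w.take v.length ≠ v) : e v s • w = w := by
  have := smul_congr w (e v s) 1 (fun i hi => by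
    rw [one_lab]
    apply e_lab_ne
    intro hh
    apply h
    have hl : v.length = i := by rw [← hh]; simp; omega
    rw [hl, hh])
  rwa [one_smul] at this

theorem e_mul (v : List S) (s t : S) : e v (s * t) = e v s * e v t := by
  ext w
  rw [mul_lab]
  by_cases h : w = v
  · subst h
    rw [fix_of_tr (tr_e t le_rfl) le_rfl, e_lab_self, e_lab_self, e_lab_self]
  · rw [e_lab_ne _ h, e_lab_ne _ h, e_lab_ne, one_mul]
    intro hh
    have hl : w.length = v.length := by rw [← hh]; simp
    rw [fix_of_tr (tr_e t le_rfl) hl.le] at hh
    exact h hh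

/-- the vertex copy of the group -/
noncomputable def eh (v : List S) : S →* W S := MonoidHom.mk' (e v) (e_mul v)

theorem commute_of_disj {a b : W S} (h : ∀ w : List S, a • w = w ∨ b • w = w) : a * b = b * a := by
  have hd : Equiv.Perm.Disjoint (MulAction.toPerm a : Equiv.Perm (List S)) (MulAction.toPerm b) := h
  apply faithful
  intro w
  have := congrArg (fun p : Equiv.Perm (List S) => p w) hd.commute.eq
  simpa [mul_smul] using this

theorem comm_conj {g : W S} {v : List S} (hg : g • v ≠ v) (s t : S) :
    (g * e v s * g⁻¹) * e v t = e v t * (g * e v s * g⁻¹) := by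
  apply commute_of_disj
  intro w
  by_cases h : w.take v.length = v
  · left
    have : (g⁻¹ • w).take v.length ≠ v := by
      intro hh
      rw [take_smul, h] at hh
      apply hg
      conv_lhs => rw [← hh]
      rw [smul_inv_smul]
    rw [mul_smul, mul_smul, e_fix s this, smul_inv_smul]
  · right
    exact e_fix t h

theorem comm_e {v w : List S} (hl : v.length = w.length) (h : v ≠ w) (s t : S) :
    e v s * e w t = e w t * e v s := by
  apply commute_of_disj
  intro u
  by_cases h1 : u.take v.length = v
  · right
    apply e_fix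
    rw [← hl, h1]; exact h
  · left
    exact e_fix s h1

theorem gen_stab [Finite S] (M : Subgroup (W S)) (l n : ℕ) (hn : ∀ f, tr n f = 1 → f ∈ M)
    (he : ∀ v s, l ≤ v.length → e v s ∈ M) : ∀ f, tr l f = 1 → f ∈ M := by
  classical
  have step : ∀ j, l ≤ j → (∀ f, tr (j + 1) f = 1 → f ∈ M) → ∀ f, tr j f = 1 → f ∈ M := by
    intro j hj ih
    have key : ∀ A : Finset (List S), (∀ v ∈ A, v.length = j) → ∀ f : W S, tr j f = 1 →
        (∀ v : List S, v.length = j → v ∉ A → f.lab v = 1) → f ∈ M := by
      intro A
      induction A using Finset.induction_on with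
      | empty =>
        intro _ f hf h
        apply ih
        rw [tr_eq_one_iff]
        intro v hv
        rcases Nat.lt_succ_iff_lt_or_eq.1 hv with h1 | h1
        · exact tr_eq_one_iff.1 hf v h1
        · exact h v h1 (by simp)
      | insert v A hv ihA =>
        intro hA f hf h
        have hvl : v.length = j := hA v (by simp)
        have h1 : e v (f.lab v)⁻¹ * f ∈ M := by
          apply ihA (fun w hw => hA w (by simp [hw]))
          · rw [map_mul, hf, tr_e _ hvl.ge, one_mul]
          · intro w hw hwA
            rw [mul_lab, fix_of_tr hf hw.le]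
            by_cases hwv : w = v
            · rw [hwv, e_lab_self, inv_mul_cancel]
            · rw [e_lab_ne _ hwv, h w hw (by simp [hwv, hwA]), one_mul]
        have h2 := M.mul_mem (M.inv_mem (he v (f.lab v)⁻¹ (by omega))) h1
        rwa [inv_mul_cancel_left] at h2
    intro f hf
    refine key (List.finite_length_eq S j).toFinset (fun v hv => by simpa using hv) f hf ?_
    intro v hv hA
    exact absurd (by simpa using hv) hA
  have down : ∀ d, ∀ j, l ≤ j → n ≤ j + d → ∀ f, tr j f = 1 → f ∈ M := by
    intro d
    induction d with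
    | zero => intro j _ h f hf; exact hn f (tr_mono1 h hf)
    | succ d ih => intro j hj h; exact step j hj (ih (j + 1) (by omega) (by omega))
  exact down n l le_rfl (by omega)

end Pool.Agent.H.MP_8eb9f8_al
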