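import Pool.Agent.H.MP_8eb9f8_al.A

namespace Pool.Agent.H.MP_8eb9f8_al

theorem exists_reps {G V : Type} [Group G] [MulAction G V] (Q : Subgroup G) :
    ∃ (r : V → V) (t : V → G), (∀ v, t v ∈ Q ∧ t v • r v = v) ∧ ∀ g ∈ Q, ∀ v, r (g • v) = r v := by
  classical
  let s := MulAction.orbitRel Q V
  have h : ∀ v : V, ∃ g ∈ Q, g • (Quotient.mk s v).out = v := by
    intro v
    have h1 : s v (Quotient.mk s v).out := Quotient.exact (Quotient.out_eq _).symm
    rw [MulAction.orbitRel_apply] at h1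
    obtain ⟨g, hg⟩ := h1
    exact ⟨g.1, g.2, hg⟩
  choose t ht using h
  refine ⟨fun v => (Quotient.mk s v).out, t, ht, fun g hg v => ?_⟩
  have : Quotient.mk s (g • v) = Quotient.mk s v := by
    apply Quotient.sound
    change s _ _
    rw [MulAction.orbitRel_apply]
    exact ⟨⟨g, hg⟩, rfl⟩
  simp only [this]

theorem abstract_step {G V S : Type} [Group G] [MulAction G V] [Group S] (Ω : V → Prop)
    (hΩ : ∀ (g : G) v, Ω v → Ω (g • v)) (P Q : Subgroup G) (hPQ : P ≤ Q)
    (free : ∀ u ∈ P, ∀ v, Ω v → u • v = v → u = 1) (α : G → V → S)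
    (hα : ∀ a ∈ P, ∀ b ∈ P, ∀ v, Ω v → α (a * b) v = α a (b • v) * α b v)
    (hθ : ∀ r : V, (∃ g ∈ Q, g • r = r ∧ g ≠ 1) → ∃ θ : G → S,
      (∀ a ∈ Q, ∀ b ∈ Q, a • r = r → b • r = r → θ (a * b) = θ a * θ b) ∧
        ∃ g ∈ Q, g • r = r ∧ θ g ≠ 1) :
    ∃ c : G → V → S, (∀ a ∈ Q, ∀ b ∈ Q, ∀ v, c (a * b) v = c a (b • v) * c b v) ∧
      (∀ u ∈ P, ∀ v, Ω v → c u v = α u v) ∧
      ∀ v, (∃ g ∈ Q, g • v = v ∧ g ≠ 1) → ∃ g ∈ Q, g • v = v ∧ c g v ≠ 1 := by
  classical
  have hθ' : ∀ r : V, ∃ θ : G → S,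
      (∀ a ∈ Q, ∀ b ∈ Q, a • r = r → b • r = r → θ (a * b) = θ a * θ b) ∧
        ((∃ g ∈ Q, g • r = r ∧ g ≠ 1) → ∃ g ∈ Q, g • r = r ∧ θ g ≠ 1) := by
    intro r
    by_cases h : ∃ g ∈ Q, g • r = r ∧ g ≠ 1
    · obtain ⟨θ, h1, h2⟩ := hθ r h
      exact ⟨θ, h1, fun _ => h2⟩
    · exact ⟨fun _ => 1, by simp, fun h' => absurd h' h⟩
  choose θ hθ1 hθ2 using hθ'
  obtain ⟨r, t, ht, hr⟩ := exists_reps (V := V) Q
  obtain ⟨r', t', ht', hr'⟩ := exists_reps (V := V) P
  let β : G → V → S := fun g v => θ (r v) ((t (g • v))⁻¹ * g * t v)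
  have hfix : ∀ g ∈ Q, ∀ v, ((t (g • v))⁻¹ * g * t v) • r v = r v := by
    intro g hg v
    rw [mul_smul, mul_smul, (ht v).2, inv_smul_eq_iff, ← hr g hg v, (ht _).2]
  have hmem : ∀ g ∈ Q, ∀ v, (t (g • v))⁻¹ * g * t v ∈ Q := fun g hg v =>
    Q.mul_mem (Q.mul_mem (Q.inv_mem (ht _).1) hg) (ht _).1
  have hβ : ∀ a ∈ Q, ∀ b ∈ Q, ∀ v, β (a * b) v = β a (b • v) * β b v := by
    intro a ha b hb v
    simp only [β]
    rw [hr b hb v, ← hθ1 (r v) _ (hmem a ha _) _ (hmem b hb _) _ (hfix b hb v)]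
    · congr 1
      rw [mul_smul]; group
    · have := hfix a ha (b • v)
      rwa [hr b hb v] at this
  let h : V → S := fun v => α (t' v) (r' v) * (β (t' v) (r' v))⁻¹
  refine ⟨fun g v => h (g • v) * β g v * (h v)⁻¹, ?_, ?_, ?_⟩
  · intro a ha b hb v
    simp only
    rw [hβ a ha b hb, mul_smul]; group
  · intro u hu v hv
    have hr0 : Ω (r' v) := by
      have := hΩ (t' v)⁻¹ v hv
      rwa [show (t' v)⁻¹ • v = r' v by rw [inv_smul_eq_iff, (ht' v).2]] at this
    have e1 : t' (u • v) = u * t' v := by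
      have := free ((t' (u • v))⁻¹ * (u * t' v))
        (P.mul_mem (P.inv_mem (ht' _).1) (P.mul_mem hu (ht' _).1)) (r' v) hr0 (by
          rw [mul_smul, mul_smul, (ht' v).2, inv_smul_eq_iff, ← hr' u hu v, (ht' _).2])
      exact eq_of_inv_mul_eq_one this
    simp only [h]
    rw [e1, hr' u hu v, hα u hu _ (ht' v).1 _ hr0, hβ u (hPQ hu) _ (hPQ (ht' v).1), (ht' v).2]
    group
  · rintro v ⟨g0, hg0, hf0, hn0⟩
    have h1 : ∃ g ∈ Q, g • r v = r v ∧ g ≠ 1 := by
      refine ⟨(t v)⁻¹ * g0 * t v, ?_, ?_, ?_⟩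
      · have := hmem g0 hg0 v
        rwa [hf0] at this
      · have := hfix g0 hg0 v
        rwa [hf0] at this
      · intro hh
        apply hn0
        have : g0 = t v * ((t v)⁻¹ * g0 * t v) * (t v)⁻¹ := by group
        rw [this, hh]; group
    obtain ⟨g1, hg1, hf1, hn1⟩ := hθ2 _ h1
    have hf : (t v * g1 * (t v)⁻¹) • v = v := by
      rw [mul_smul, mul_smul]
      have : (t v)⁻¹ • v = r v := by rw [inv_smul_eq_iff, (ht v).2]
      rw [this, hf1, (ht v).2]
    refine ⟨t v * g1 * (t v)⁻¹, Q.mul_mem (Q.mul_mem (ht v).1 hg1) (Q.inv_mem (ht v).1), hf, ?_⟩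
    simp only [β, hf]
    rw [show (t v)⁻¹ * (t v * g1 * (t v)⁻¹) * t v = g1 by group]
    intro hh
    apply hn1
    have : θ (r v) g1 = (h v)⁻¹ * (h v * θ (r v) g1 * (h v)⁻¹) * h v := by group
    rw [this, hh]; group

theorem exists_rec {α : Type} [Inhabited α] (Good : ℕ → (ℕ → α) → α → Prop)
    (hc : ∀ L C C' c, (∀ i, i < L → C i = C' i) → Good L C c → Good L C' c)
    (step : ∀ L C, (∀ i, i < L → Good i C (C i)) → ∃ c, Good L C c) :
    ∃ C : ℕ → α, ∀ L, Good L C (C L) := by
  classical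
  let pick : ℕ → (ℕ → α) → α := fun L C => if h : ∃ c, Good L C c then h.choose else default
  let cc : ℕ → ℕ → α := fun L =>
    Nat.rec (fun _ => default) (fun L c => Function.update c L (pick L c)) L
  have cs : ∀ L, cc (L + 1) = Function.update (cc L) L (pick L (cc L)) := fun L => rfl
  let C : ℕ → α := fun L => cc (L + 1) L
  have h1 : ∀ L i, i < L → cc L i = C i := by
    intro L
    induction L with
    | zero => intro i hi; omega
    | succ L ih =>
      intro i hi
      rcases Nat.lt_succ_iff_lt_or_eq.1 hi with h | h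
      · rw [cs, Function.update_of_ne h.ne, ih i h]
      · rw [h]
  refine ⟨C, fun L => ?_⟩
  induction L using Nat.strong_induction_on with
  | _ L ih =>
    have h2 : ∃ c, Good L (cc L) c := step L (cc L) fun i hi => by
      rw [h1 L i hi]
      exact hc i C (cc L) _ (fun j hj => (h1 L j (hj.trans hi)).symm) (ih i hi)
    have h3 : C L = h2.choose := by
      simp only [C, cs, Function.update_self, pick, dif_pos h2]
    rw [h3]
    exact hc L (cc L) C _ (h1 L) h2.choose_spec

variable {S : Type} [Group S]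

/-- block boundaries -/
noncomputable def m (S : Type) [Group S] : ℕ → ℕ
  | 0 => 0
  | N + 1 => m S N + (Set.range (tr (S := S) (m S N))).ncard + 1

theorem m_lt (N : ℕ) : m S N < m S (N + 1) := by simp only [m]; omega
theorem m_strict : StrictMono (m S) := strictMono_nat_of_lt_succ m_lt
theorem m_mono {a b : ℕ} (h : a ≤ b) : m S a ≤ m S b := m_strict.monotone h
theorem le_m (N : ℕ) : N ≤ m S N := m_strict.le_apply

theorem exists_block (L : ℕ) : ∃ N, m S N ≤ L ∧ L < m S (N + 1) := by
  induction L with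
  | zero => exact ⟨0, le_rfl, m_lt 0⟩
  | succ L ih =>
    obtain ⟨N, h1, h2⟩ := ih
    by_cases h : L + 1 < m S (N + 1)
    · exact ⟨N, by omega, h⟩
    · exact ⟨N + 1, by omega, by have := m_lt (S := S) (N + 1); omega⟩

def Kp (C : ℕ → W S → List S → S) (s L : ℕ) (g : W S) : Prop :=
  ∀ v : List S, s ≤ v.length → v.length < L → g.lab v = C v.length g v

omit [Group S] in
theorem Kp.mono {C : ℕ → W S → List S → S} {s L s' L' : ℕ} {g : W S} (h : Kp C s L g)
    (hs : s ≤ s') (hL : L' ≤ L) : Kp C s' L' g :=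
  fun v h1 h2 => h v (hs.trans h1) (lt_of_lt_of_le h2 hL)

structure Good (L : ℕ) (C : ℕ → W S → List S → S) (c : W S → List S → S) : Prop where
  inv : ∀ a b, tr L a = tr L b → c a = c b
  coc : ∀ N, m S N ≤ L → ∀ a b, Kp C (m S N) L a → Kp C (m S N) L b → ∀ v : List S, v.length = L →
    c (a * b) v = c a (b • v) * c b v
  pre : ∀ N, m S (N + 1) < L → ∀ u, Kp C (m S N) L u → ∀ x v, v.length + 1 = L →
    c u (x :: v) = C v.length (u.sec x) v
  prog : ∀ N, m S N ≤ L → L < m S (N + 1) → ∀ v : List S, v.length = L →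
    (∃ g, Kp C (m S N) L g ∧ g • v = v ∧ tr L g ≠ 1) →
      ∃ g, Kp C (m S N) L g ∧ g • v = v ∧ c g v ≠ 1

theorem Good.congr {L : ℕ} {C C' : ℕ → W S → List S → S} {c : W S → List S → S}
    (h : ∀ i, i < L → C i = C' i) (hg : Good L C c) : Good L C' c := by
  have hK : ∀ s, Kp C' s L = Kp C s L := by
    intro s
    funext g
    apply propext
    constructor
    · intro hk v h1 h2; rw [h _ h2]; exact hk v h1 h2
    · intro hk v h1 h2; rw [← h _ h2]; exact hk v h1 h2
  refine ⟨hg.inv, ?_, ?_, ?_⟩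
  · simpa only [hK] using hg.coc
  · intro N hN u hu x v hv
    rw [hK] at hu
    rw [← h _ (by omega)]
    exact hg.pre N hN u hu x v hv
  · simpa only [hK] using hg.prog

section Up
variable {C : ℕ → W S → List S → S} {L0 : ℕ} (up : ∀ i, i < L0 → Good i C (C i))
include up

theorem K_one (N : ℕ) : ∀ L, L ≤ L0 → Kp C (m S N) L 1 := by
  intro L
  induction L with
  | zero => intro _ v _ h; omega
  | succ L ih =>
    intro hL v h1 h2
    rcases Nat.lt_succ_iff_lt_or_eq.1 h2 with h | h
    · exact ih (by omega) v h1 h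
    · have := (up L (by omega)).coc N (by omega) 1 1 (ih (by omega)) (ih (by omega)) v h
      rw [mul_one, one_smul] at this
      rw [h, one_lab]
      exact (mul_eq_left.1 this.symm).symm

theorem K_mul {N L : ℕ} (hL : L ≤ L0) {a b : W S} (ha : Kp C (m S N) L a)
    (hb : Kp C (m S N) L b) : Kp C (m S N) L (a * b) := by
  intro v h1 h2
  rw [mul_lab, ha _ (by simpa using h1) (by simpa using h2), hb v h1 h2, length_smul,
    (up v.length (by omega)).coc N h1 a b (ha.mono le_rfl h2.le) (hb.mono le_rfl h2.le) v rfl]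

theorem K_inv (N : ℕ) {a : W S} : ∀ L, L ≤ L0 → Kp C (m S N) L a → Kp C (m S N) L a⁻¹ := by
  intro L
  induction L with
  | zero => intro _ _ v _ h; omega
  | succ L ih =>
    intro hL ha v h1 h2
    have ha' := ha.mono le_rfl (Nat.le_succ L)
    rcases Nat.lt_succ_iff_lt_or_eq.1 h2 with h | h
    · exact ih (by omega) ha' v h1 h
    · have e1 := (up L (by omega)).coc N (by omega) a⁻¹ a (ih (by omega) ha') ha' (a⁻¹ • v)
        (by simpa using h)
      have e2 := K_one up N (L + 1) hL (a⁻¹ • v) (by simpa using h1) (by simpa using h2)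
      have e3 := ha (a⁻¹ • v) (by simpa using h1) (by simpa using h2)
      have e4 := mul_lab a⁻¹ a (a⁻¹ • v)
      rw [length_smul, h] at e2 e3
      rw [inv_mul_cancel, smul_inv_smul] at e1 e4
      rw [← e2, ← e3, e4] at e1
      rw [h]
      exact mul_right_cancel e1

theorem K_tr {s L : ℕ} (hL : L ≤ L0) {a b : W S} (h : tr L a = tr L b) (ha : Kp C s L a) :
    Kp C s L b := by
  intro v h1 h2
  rw [← tr_eq_iff.1 h v h2, ha v h1 h2, (up v.length (by omega)).inv a b (tr_mono h2.le h)]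

theorem uniq {s : ℕ} {a b : W S} (h : tr s a = tr s b) :
    ∀ L, L ≤ L0 → Kp C s L a → Kp C s L b → tr L a = tr L b := by
  intro L
  induction L with
  | zero => intro _ _ _; exact tr_eq_iff.2 fun v h => by omega
  | succ L ih =>
    intro hL ha hb
    have h0 := ih (by omega) (ha.mono le_rfl (Nat.le_succ L)) (hb.mono le_rfl (Nat.le_succ L))
    refine tr_eq_iff.2 fun v hv => ?_
    rcases Nat.lt_succ_iff_lt_or_eq.1 hv with h1 | h1
    · exact tr_eq_iff.1 h0 v h1
    · by_cases hs : s ≤ v.length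
      · rw [ha v hs hv, hb v hs hv, h1, (up L (by omega)).inv a b h0]
      · exact tr_eq_iff.1 h v (by omega)

theorem sec_K {N L : ℕ} (hL : L + 1 ≤ L0) {u : W S} (hu : Kp C (m S N) (L + 1) u) (x : S) :
    Kp C (m S (N + 1)) L (u.sec x) := by
  intro v h1 h2
  have h3 := m_lt (S := S) N
  have := hu (x :: v) (by simp; omega) (by simpa using h2)
  change u.lab (x :: v) = _
  rw [this, List.length_cons]
  exact (up _ (by omega)).pre N (by omega) u (hu.mono le_rfl (by omega)) x v rfl

theorem free_aux [Finite S] (N : ℕ) (v : List S) :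
    m S N ≤ v.length → v.length ≤ m S (N + 1) → v.length ≤ L0 →
    (∀ g, Kp C (m S N) v.length g → g • v = v → tr (m S N) g = 1) ∨
    {k | ∃ g, Kp C (m S N) v.length g ∧ g • v = v ∧ tr (m S N) g = k}.ncard + v.length ≤
      (Set.range (tr (S := S) (m S N))).ncard + m S N := by
  have hfin : ∀ w : List S,
      {k | ∃ g, Kp C (m S N) w.length g ∧ g • w = w ∧ tr (m S N) g = k} ⊆
        Set.range (tr (S := S) (m S N)) := by
    rintro w k ⟨g, -, -, hg⟩
    exact ⟨g, hg⟩
  induction v using List.reverseRecOn with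
  | nil =>
    intro h1 _ _
    right
    have := Set.ncard_le_ncard (hfin []) (finite_range_tr _)
    simp only [List.length_nil] at this ⊢
    omega
  | append_singleton w x ih =>
    intro h1 h2 h3
    have hl : (w ++ [x]).length = w.length + 1 := by simp
    by_cases h0 : m S N = w.length + 1
    · right
      have := Set.ncard_le_ncard (hfin (w ++ [x])) (finite_range_tr _)
      omega
    have hdown : ∀ g : W S, g • (w ++ [x]) = w ++ [x] → g • w = w ∧ g.lab w = 1 := by
      intro g hg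
      rw [smul_snoc] at hg
      have := List.append_inj' hg rfl
      exact ⟨this.1, by simpa using this.2⟩
    by_cases htriv : ∀ g, Kp C (m S N) w.length g → g • w = w → tr (m S N) g = 1
    · left
      intro g hg hf
      exact htriv g (hg.mono le_rfl (by omega)) (hdown g hf).1
    rcases ih (by omega) (by omega) (by omega) with h | h
    · exact absurd h htriv
    right
    push Not at htriv
    obtain ⟨g, hg, hf, hn⟩ := htriv
    obtain ⟨g1, hg1, hf1, hn1⟩ := (up w.length (by omega)).prog N (by omega) (by omega) w rfl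
      ⟨g, hg, hf, fun hh => hn (tr_mono1 (by omega) hh)⟩
    have hlt : {k | ∃ g, Kp C (m S N) (w ++ [x]).length g ∧ g • (w ++ [x]) = w ++ [x] ∧
        tr (m S N) g = k}.ncard <
        {k | ∃ g, Kp C (m S N) w.length g ∧ g • w = w ∧ tr (m S N) g = k}.ncard := by
      apply Set.ncard_lt_ncard _ ((finite_range_tr _).subset (hfin w))
      constructor
      · rintro k ⟨g, hg, hf, hk⟩
        exact ⟨g, hg.mono le_rfl (by omega), (hdown g hf).1, hk⟩
      · intro hsub
        obtain ⟨g2, hg2, hf2, hk⟩ := hsub ⟨g1, hg1, hf1, rfl⟩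
        have e1 := uniq up hk w.length (by omega) (hg2.mono le_rfl (by omega)) hg1
        have e2 := hg2 w (by omega) (by omega)
        rw [(up w.length (by omega)).inv _ _ e1, (hdown g2 hf2).2] at e2
        exact hn1 e2.symm
    omega

theorem free [Finite S] {N L : ℕ} (hL : L ≤ L0) {g : W S} (hg : Kp C (m S N) L g) {v : List S}
    (h1 : m S (N + 1) ≤ v.length) (h2 : v.length ≤ L) (hf : g • v = v) : tr L g = 1 := by
  have hl : (v.take (m S (N + 1))).length = m S (N + 1) := by simp; omega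
  have h3 := m_lt (S := S) N
  have h4 : tr (m S N) g = 1 := by
    rcases free_aux up N (v.take (m S (N + 1))) (by omega) (by omega) (by omega) with h | h
    · exact h g (hg.mono le_rfl (by omega)) (by rw [← take_smul, hf])
    · rw [hl] at h
      simp only [m] at h
      omega
  have := uniq up (a := g) (b := 1) (by rw [h4, map_one]) L hL hg (K_one up N L hL)
  rwa [map_one] at this

/-- the finite group at a level -/
def Qg (N L : ℕ) (hL : L ≤ L0) : Subgroup (W S) where
  carrier := {g | Kp C (m S N) L g ∧ tr L g = g}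
  one_mem' := ⟨K_one up N L hL, map_one _⟩
  mul_mem' ha hb := ⟨K_mul up hL ha.1 hb.1, by rw [map_mul, ha.2, hb.2]⟩
  inv_mem' ha := ⟨K_inv up N L hL ha.1, by rw [map_inv, ha.2]⟩

theorem tr_mem_Qg {N L : ℕ} (hL : L ≤ L0) {g : W S} (hg : Kp C (m S N) L g) :
    tr L g ∈ Qg up N L hL := ⟨K_tr up hL (tr_tr le_rfl g).symm hg, tr_tr le_rfl g⟩

theorem step [Finite S] : ∃ c, Good L0 C c := by
  obtain ⟨N, hN1, hN2⟩ := exists_block (S := S) L0
  let α : W S → List S → S := fun u v => match v with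
    | [] => 1
    | x :: v => C v.length (u.sec x) v
  have hP : ∃ P : Subgroup (W S), P ≤ Qg up N L0 le_rfl ∧
      (∀ u ∈ P, ∀ v : List S, v.length = L0 → u • v = v → u = 1) ∧
      (∀ a ∈ P, ∀ b ∈ P, ∀ v : List S, v.length = L0 → α (a * b) v = α a (b • v) * α b v) ∧
      ∀ N', m S (N' + 1) < L0 → Qg up N' L0 le_rfl ≤ P := by
    by_cases h : m S 1 < L0
    · obtain ⟨N1, h1, h2⟩ := exists_block (S := S) (L0 - 1)
      obtain ⟨N2, rfl⟩ : ∃ N2, N1 = N2 + 1 := by
        cases N1 with
        | zero => simp only [zero_add] at h2; omega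
        | succ k => exact ⟨k, rfl⟩
      refine ⟨Qg up N2 L0 le_rfl, ?_, ?_, ?_, ?_⟩
      · intro g hg
        refine ⟨hg.1.mono (m_mono ?_) le_rfl, hg.2⟩
        have : m S (N2 + 1) < m S (N + 1) := by omega
        have := m_strict.lt_iff_lt.1 this
        omega
      · intro u hu v hv hf
        rw [← hu.2]
        exact free up le_rfl hu.1 (by omega) hv.le hf
      · intro a ha b hb v hv
        cases v with
        | nil => simp [α]
        | cons x v =>
          simp only [List.length_cons] at hv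
          simp only [α, smul_cons', length_smul, sec_mul]
          exact (up v.length (by omega)).coc (N2 + 1) (by omega) _ _
            (sec_K up (by omega) (hv ▸ ha.1) _) (sec_K up (by omega) (hv ▸ hb.1) _) v rfl
      · intro N' hN' g hg
        refine ⟨hg.1.mono (m_mono ?_) le_rfl, hg.2⟩
        have : m S (N' + 1) < m S (N2 + 1 + 1) := by omega
        have := m_strict.lt_iff_lt.1 this
        omega
    · refine ⟨⊥, bot_le, fun u hu _ _ _ => hu, ?_, ?_⟩
      · intro a ha b hb v hv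
        rw [Subgroup.mem_bot] at ha hb
        subst ha hb
        cases v with
        | nil => simp [α]
        | cons x v =>
          simp only [List.length_cons] at hv
          have := K_one up 0 L0 le_rfl v (by simp [m]) (by omega)
          simp only [α, mul_one, one_smul, sec_one, ← this, one_lab]
      · intro N' hN'
        have := m_mono (S := S) (show 1 ≤ N' + 1 by omega)
        omega
  obtain ⟨P, hPQ, hfree, hα, hPN⟩ := hP
  obtain ⟨c, hc1, hc2, hc3⟩ := abstract_step (fun v : List S => v.length = L0)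
    (fun g v hv => by simpa using hv) P (Qg up N L0 le_rfl) hPQ hfree α hα (by
      rintro r ⟨g, hg, hf, hn⟩
      obtain ⟨u, hu1, g1, hg1, hu2⟩ :=
        exists_min {g | g ∈ Qg up N L0 le_rfl ∧ g • r = r} ⟨g, ⟨hg, hf⟩, hn⟩
      refine ⟨fun g => g.lab u, fun a _ b hb _ hbr => ?_, g1, hg1.1, hg1.2, hu2⟩
      simp only [mul_lab, hu1 b ⟨hb, hbr⟩])
  refine ⟨fun g v => c (tr L0 g) v, ?_, ?_, ?_, ?_⟩
  · intro a b h
    simp only [h]
  · intro N' hN' a b ha hb v hv
    have hle : m S N' ≤ m S N := by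
      apply m_mono
      have : m S N' < m S (N + 1) := by omega
      have := m_strict.lt_iff_lt.1 this
      omega
    simp only [map_mul]
    rw [hc1 _ (tr_mem_Qg up le_rfl (ha.mono hle le_rfl)) _
      (tr_mem_Qg up le_rfl (hb.mono hle le_rfl)), smul_of_tr (tr_tr le_rfl b) hv.le]
  · intro N' hN' u hu x v hv
    rw [hc2 _ (hPN N' hN' (tr_mem_Qg up le_rfl hu)) (x :: v) (by simpa using hv)]
    simp only [α]
    rw [(up v.length (by omega)).inv ((tr L0 u).sec x) (u.sec x)]
    refine tr_eq_iff.2 fun w hw => ?_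
    change (tr L0 u).lab (x :: w) = u.lab (x :: w)
    rw [tr_lab, if_pos (by simp; omega)]
  · rintro N' h1 h2 v hv ⟨g, hg, hf, hn⟩
    have hNN : N' = N := by
      have a1 : m S N' < m S (N + 1) := by omega
      have a2 : m S N < m S (N' + 1) := by omega
      have a3 := m_strict.lt_iff_lt.1 a1
      have a4 := m_strict.lt_iff_lt.1 a2
      omega
    subst hNN
    obtain ⟨g1, hg1, hf1, hn1⟩ := hc3 v ⟨tr L0 g, tr_mem_Qg up le_rfl hg, by
      rw [smul_of_tr (tr_tr le_rfl g) hv.le, hf], hn⟩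
    exact ⟨g1, hg1.1, hf1, by simpa only [hg1.2] using hn1⟩

end Up

theorem exists_C (S : Type) [Group S] [Finite S] :
    ∃ C : ℕ → W S → List S → S, ∀ L, Good L C (C L) :=
  haveI : Inhabited S := ⟨1⟩
  exists_rec (α := W S → List S → S) Good (fun _ _ _ _ h hg => hg.congr h) (fun _ _ up => step up)

end Pool.Agent.H.MP_8eb9f8_al
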