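import Pool.Agent.H.MP_8eb9f8_al.B

namespace Pool.Agent.H.MP_8eb9f8_al

variable {S : Type} [Group S]

theorem fi_ker [Finite S] {Γ : Type} [Group Γ] (φ : Γ →* W S) (L : ℕ) :
    ((tr L).comp φ).ker.FiniteIndex := by
  have : Finite ((tr L).comp φ).range := by
    refine ((finite_range_tr (S := S) L).subset ?_).to_subtype
    rintro _ ⟨g, rfl⟩
    exact ⟨φ g, rfl⟩
  exact Subgroup.finiteIndex_ker _

theorem inf_of_fi {Γ : Type} [Group Γ] [Infinite Γ] (H : Subgroup Γ) [hH : H.FiniteIndex] :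
    Infinite H := by
  have h := H.card_mul_index
  rw [Nat.card_eq_zero_of_infinite (α := Γ), mul_eq_zero] at h
  rcases h with h | h
  · rcases Nat.card_eq_zero.1 h with h | h
    · exact h.elim 1
    · exact h
  · exact absurd h hH.index_ne_zero

section
variable {C : ℕ → W S → List S → S} (hC : ∀ L, Good L C (C L))
include hC

/-- elements obeying the rules from block `N` on -/
def KI (N : ℕ) : Subgroup (W S) where
  carrier := {g | ∀ L, Kp C (m S N) L g}
  one_mem' L := K_one (fun i _ => hC i) N L le_rfl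
  mul_mem' ha hb L := K_mul (fun i _ => hC i) le_rfl (ha L) (hb L)
  inv_mem' ha L := K_inv (fun i _ => hC i) N L le_rfl (ha L)

theorem KI_mono {N N' : ℕ} (h : N ≤ N') : KI hC N ≤ KI hC N' :=
  fun _ hg L => (hg L).mono (m_mono h) le_rfl

/-- the group -/
def GG : Subgroup (W S) where
  carrier := {g | ∃ N, g ∈ KI hC N}
  one_mem' := ⟨0, one_mem _⟩
  mul_mem' := by
    rintro a b ⟨N, ha⟩ ⟨N', hb⟩
    exact ⟨max N N', mul_mem (KI_mono hC (le_max_left _ _) ha) (KI_mono hC (le_max_right _ _) hb)⟩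
  inv_mem' := by
    rintro a ⟨N, ha⟩
    exact ⟨N, inv_mem ha⟩

theorem uniqI {N : ℕ} {a b : W S} (ha : a ∈ KI hC N) (hb : b ∈ KI hC N)
    (h : tr (m S N) a = tr (m S N) b) : a = b := by
  ext v
  exact tr_eq_iff.1 (uniq (fun i _ => hC i) h (v.length + 1) le_rfl (ha _) (hb _)) v (by omega)

theorem exists_lift (N : ℕ) (g : W S) : ∃ g' ∈ KI hC N, tr (m S N) g' = tr (m S N) g := by
  classical
  let seq : ℕ → W S := fun L => Nat.rec g (fun L a =>
    ⟨fun v => if v.length = L ∧ m S N ≤ L then C L a v else a.lab v⟩) L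
  have hs : ∀ L v, (seq (L + 1)).lab v =
      if v.length = L ∧ m S N ≤ L then C L (seq L) v else (seq L).lab v := fun L v => rfl
  have f1 : ∀ (v : List S) k, (seq (v.length + 1 + k)).lab v = (seq (v.length + 1)).lab v := by
    intro v k
    induction k with
    | zero => rfl
    | succ k ih => rw [← add_assoc, hs, if_neg (by omega), ih]
  let g' : W S := ⟨fun v => (seq (v.length + 1)).lab v⟩
  have f2 : ∀ L, tr L g' = tr L (seq L) := by
    intro L
    refine tr_eq_iff.2 fun v hv => ?_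
    obtain ⟨k, rfl⟩ : ∃ k, L = v.length + 1 + k := ⟨L - (v.length + 1), by omega⟩
    exact (f1 v k).symm
  have f3 : ∀ L (v : List S), v.length < m S N → (seq L).lab v = g.lab v := by
    intro L v hv
    induction L with
    | zero => rfl
    | succ L ih => rw [hs, if_neg (by omega), ih]
  refine ⟨g', fun L v h1 _ => ?_, tr_eq_iff.2 fun v hv => f3 (v.length + 1) v hv⟩
  rw [(hC v.length).inv _ _ (f2 _)]
  change (seq (v.length + 1)).lab v = _
  rw [hs, if_pos ⟨rfl, h1⟩]

theorem exists_lam : ∃ lam : ℕ → W S →* W S,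
    ∀ N g, lam N g ∈ KI hC N ∧ tr (m S N) (lam N g) = tr (m S N) g := by
  choose f hf1 hf2 using exists_lift hC
  refine ⟨fun N => MonoidHom.mk' (f N) fun a b => ?_, fun N g => ⟨hf1 N g, hf2 N g⟩⟩
  apply uniqI hC (hf1 N _) (mul_mem (hf1 N a) (hf1 N b))
  rw [map_mul, hf2, hf2, hf2, map_mul]

theorem main [Finite S] (hS : commutator S = ⊤) (M : Subgroup (W S)) (hM : M ≤ GG hC) (k : ℕ)
    (hn : ∀ x ∈ GG hC, tr k x = 1 → ∀ y ∈ M, x * y * x⁻¹ ∈ M) (hg : ∃ g ∈ M, g ≠ 1) :
    ∃ l, ∀ h ∈ GG hC, tr l h = 1 → h ∈ M := by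
  obtain ⟨lam, hlam⟩ := exists_lam hC
  obtain ⟨g, hgM, hg1⟩ := hg
  obtain ⟨N, hN⟩ := hM hgM
  refine ⟨max k (m S (N + 1)), ?_⟩
  rintro h ⟨N1, hN1⟩ hl
  have hid : ∀ x ∈ KI hC (max N N1), lam (max N N1) x = x := fun x hx =>
    uniqI hC (hlam _ x).1 hx (hlam _ x).2
  have hone : ∀ x, tr (m S (max N N1)) x = 1 → lam (max N N1) x = 1 := fun x hx =>
    uniqI hC (hlam _ x).1 (one_mem _) (by rw [(hlam _ x).2, hx, map_one])
  rw [← hid h (KI_mono hC (le_max_right _ _) hN1)]
  refine gen_stab (M.comap (lam (max N N1))) _ (m S (max N N1)) (fun f hf => ?_) ?_ h hl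
  · rw [Subgroup.mem_comap, hone f hf]; exact one_mem _
  intro v s hv
  rw [Subgroup.mem_comap]
  by_cases hvl : m S (max N N1) ≤ v.length
  · rw [hone _ (tr_e s hvl)]; exact one_mem _
  have hk : k ≤ v.length := (le_max_left _ _).trans hv
  have hgv : g • v ≠ v := by
    intro hf
    apply hg1
    apply eq_one_of_tr
    intro L
    exact tr_mono1 (le_max_left L v.length) (free (fun i _ => hC i) le_rfl (hN _)
      ((le_max_right _ _).trans hv) (le_max_right _ _) hf)
  have htop : M.comap ((lam (max N N1)).comp (eh v)) = ⊤ := by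
    rw [eq_top_iff, ← hS, commutator_eq_closure, Subgroup.closure_le]
    rintro _ ⟨a, b, rfl⟩
    have hx : ∀ t, ∀ y ∈ M, lam (max N N1) (e v t) * y * (lam (max N N1) (e v t))⁻¹ ∈ M := by
      intro t
      apply hn _ ⟨_, (hlam _ _).1⟩
      rw [tr_mono (by omega) (hlam _ _).2]
      exact tr_e t hk
    have hcomm : ∀ s t, Commute (g * lam (max N N1) (e v s) * g⁻¹) (lam (max N N1) (e v t)) := by
      intro s t
      have := congrArg (lam (max N N1)) (comm_conj hgv s t)
      simp only [map_mul, map_inv, hid g (KI_mono hC (le_max_left _ _) hN)] at this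
      exact this
    have c1 := M.mul_mem hgM (hx a⁻¹ _ (M.inv_mem hgM))
    have c2 := M.mul_mem c1 (hx b _ (M.inv_mem c1))
    have c3 := (((hcomm a⁻¹ a⁻¹).inv_right.mul_right (hcomm a⁻¹ b)).mul_right
      (hcomm a⁻¹ a⁻¹)).mul_inv_cancel
    have ea : lam (max N N1) (eh v a) = (lam (max N N1) (e v a⁻¹))⁻¹ := by
      change _ = (lam (max N N1) (eh v a⁻¹))⁻¹
      rw [map_inv, map_inv, inv_inv]
    have eb : lam (max N N1) (eh v b) = lam (max N N1) (e v b) := rfl
    change (lam (max N N1)).comp (eh v) (a * b * a⁻¹ * b⁻¹) ∈ M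
    simp only [MonoidHom.comp_apply, map_mul, map_inv, ea, eb, inv_inv]
    rw [← c3]
    convert c2 using 1
    group
  have : s ∈ M.comap ((lam (max N N1)).comp (eh v)) := htop ▸ Subgroup.mem_top s
  exact this

theorem inf_GG [Nontrivial S] : Infinite (GG hC) := by
  obtain ⟨lam, hlam⟩ := exists_lam hC
  obtain ⟨s, hs⟩ := exists_ne (1 : S)
  let f : ℕ → GG hC := fun i => ⟨lam (i + 1) (e (List.replicate i 1) s), _, (hlam _ _).1⟩
  have hlab : ∀ i j, j ≤ i → (f i).1.lab (List.replicate j 1) =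
      (e (List.replicate i 1) s).lab (List.replicate j 1) := fun i j h =>
    tr_eq_iff.1 (hlam _ _).2 _ (by have := le_m (S := S) (i + 1); simp; omega)
  have key : ∀ i j, j < i → f i ≠ f j := by
    intro i j h hh
    have h1 := hlab i j h.le
    rw [hh, hlab j j le_rfl, e_lab_self, e_lab_ne] at h1
    · exact hs h1
    · intro h2
      have := congrArg List.length h2
      simp at this
      omega
  refine Infinite.of_injective f fun i j h => ?_
  rcases lt_trichotomy i j with h1 | h1 | h1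
  · exact absurd h.symm (key j i h1)
  · exact h1
  · exact absurd h (key i j h1)

theorem hji [Finite S] [Nontrivial S] (hS : commutator S = ⊤) (H : Subgroup (GG hC))
    (hH : H.FiniteIndex) : Infinite H ∧ ∀ M : Subgroup H, M.Normal → M ≠ ⊥ → M.FiniteIndex := by
  have := inf_GG hC
  refine ⟨inf_of_fi H, fun M hMn hM => ?_⟩
  obtain ⟨k, hk⟩ := main hC hS (H.normalCore.map (GG hC).subtype) (Subgroup.map_subtype_le _) 0
    (by
      rintro x hx - _ ⟨y, hy, rfl⟩
      exact ⟨_, H.normalCore_normal.conj_mem y hy ⟨x, hx⟩, rfl⟩)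
    (by
      have := inf_of_fi H.normalCore
      obtain ⟨y, hy⟩ := exists_ne (1 : H.normalCore)
      exact ⟨_, ⟨y.1, y.2, rfl⟩, fun h => hy (Subtype.ext (Subtype.ext h))⟩)
  obtain ⟨l, hl⟩ := main hC hS ((M.map H.subtype).map (GG hC).subtype)
    (Subgroup.map_subtype_le _) k
    (by
      rintro x hx hxk _ ⟨_, ⟨y, hy, rfl⟩, rfl⟩
      obtain ⟨x', hx', rfl⟩ := hk x hx hxk
      exact ⟨_, ⟨_, hMn.conj_mem y hy ⟨x', H.normalCore_le hx'⟩, rfl⟩, rfl⟩)
    (by
      obtain ⟨y, hy⟩ := Subgroup.ne_bot_iff_exists_ne_one.1 hM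
      exact ⟨_, ⟨_, ⟨y.1, y.2, rfl⟩, rfl⟩,
        fun h => hy (Subtype.ext (Subtype.ext (Subtype.ext h)))⟩)
  have := fi_ker ((GG hC).subtype.comp H.subtype) l
  apply Subgroup.finiteIndex_of_le (H := ((tr l).comp ((GG hC).subtype.comp H.subtype)).ker)
  intro y hy
  obtain ⟨_, ⟨z, hz, rfl⟩, h2⟩ := hl y.1.1 y.1.2 hy
  have : z = y := Subtype.ext (Subtype.ext h2)
  exact this ▸ hz

theorem rf [Finite S] : Group.ResiduallyFinite (GG hC) := by
  rw [Group.residuallyFinite_iff_exists_finiteIndex]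
  intro g hg
  by_contra hc
  push Not at hc
  exact hg (Subtype.ext (eq_one_of_tr fun L => hc _ (fi_ker (GG hC).subtype L)))

theorem sec_mem {g : W S} (hg : g ∈ GG hC) (x : S) : g.sec x ∈ GG hC := by
  obtain ⟨N, hN⟩ := hg
  exact ⟨N + 1, fun L => sec_K (fun i _ => hC i) le_rfl (hN (L + 1)) x⟩

theorem nonlin {s t : S} (hst : s * t ≠ t * s) (K : Type*) [Field K] (n : ℕ)
    (φ : GG hC →* GL (Fin n) K) : ¬ Function.Injective φ := by
  classical
  intro hφ
  obtain ⟨lam, hlam⟩ := exists_lam hC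
  have hs : s ≠ 1 := by rintro rfl; simp at hst
  let L := n * n + 1
  let v : Fin L → List S := fun i => List.ofFn fun j => if j = i then s else 1
  have hvl : ∀ i, (v i).length = L := fun i => List.length_ofFn
  have hv : ∀ i j, i ≠ j → v i ≠ v j := by
    intro i j hij h
    have := congrFun (List.ofFn_injective h) i
    simp only [if_true, if_neg hij] at this
    exact hs this
  let a : Fin L → S → GG hC := fun i x => ⟨lam (L + 1) (e (v i) x), _, (hlam _ _).1⟩
  let A : Fin L → S → Matrix (Fin n) (Fin n) K := fun i x => (φ (a i x) : Matrix _ _ K)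
  have h1 : ∀ i j, i ≠ j → A i s * A j t = A j t * A i s := by
    intro i j hij
    have : a i s * a j t = a j t * a i s := by
      apply Subtype.ext
      change lam _ _ * lam _ _ = lam _ _ * lam _ _
      rw [← map_mul, ← map_mul, comm_e (by rw [hvl, hvl]) (hv i j hij)]
    simp only [A]
    rw [← Units.val_mul, ← Units.val_mul, ← map_mul, ← map_mul, this]
  have h2 : ∀ i, A i s * A i t ≠ A i t * A i s := by
    intro i h
    simp only [A] at h
    rw [← Units.val_mul, ← Units.val_mul, ← map_mul, ← map_mul] at h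
    have h3 := congrArg Subtype.val (hφ (Units.ext h))
    change lam _ _ * lam _ _ = lam _ _ * lam _ _ at h3
    rw [← map_mul, ← map_mul, ← e_mul, ← e_mul] at h3
    have h4 := congrArg (tr (m S (L + 1))) h3
    rw [(hlam _ _).2, (hlam _ _).2] at h4
    have h5 := tr_eq_iff.1 h4 (v i) (by have := le_m (S := S) (L + 1); rw [hvl]; omega)
    rw [e_lab_self, e_lab_self] at h5
    exact hst h5
  have hli : LinearIndependent K fun i => A i t := by
    rw [Fintype.linearIndependent_iff]
    intro c hc i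
    have e1 : A i s * (∑ j, c j • A j t) - (∑ j, c j • A j t) * A i s =
        c i • (A i s * A i t - A i t * A i s) := by
      rw [Finset.mul_sum, Finset.sum_mul, ← Finset.sum_sub_distrib, Finset.sum_eq_single i]
      · rw [Matrix.mul_smul, Matrix.smul_mul, smul_sub]
      · intro j _ hj
        rw [Matrix.mul_smul, Matrix.smul_mul, h1 i j hj.symm, sub_self]
      · simp
    rw [hc, mul_zero, zero_mul, sub_zero] at e1
    rcases smul_eq_zero.1 e1.symm with h | h
    · exact h
    · exact absurd (sub_eq_zero.1 h) (h2 i)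
  have := hli.fintype_card_le_finrank
  simp [Module.finrank_matrix, L] at this

end

end Pool.Agent.H.MP_8eb9f8_al
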